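import Pool.Agent.MP_ed9623_an.H77.SpecZ

/-! The abstract data of the Navier-Stokes system. -/

open MeasureTheory Filter Topology Set
open scoped ContDiff InnerProductSpace

namespace Pool.Agent.MP_ed9623_an.H77

open H64

namespace Model

variable {Ω : Set P}

theorem inner_X (x : X2) (ζ : E6) : ⟪x, vE ζ⟫_ℝ = ip (fun j => x j) (vl ζ) := by
  rw [PiLp.inner_apply]
  exact Finset.sum_congr rfl fun j _ => inner_L _ _

theorem inner_E (v ζ : E6) : ⟪v, ζ⟫_ℝ - ⟪vE v, vE ζ⟫_ℝ = dj v ζ := by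
  rw [PiLp.inner_apply, PiLp.inner_apply, Fintype.sum_prod_type, ← Finset.sum_sub_distrib]
  refine Finset.sum_congr rfl fun j _ => ?_
  rw [Fintype.sum_option, vE_apply, vE_apply, add_sub_cancel_left]
  exact Finset.sum_congr rfl fun i _ => inner_L _ _

theorem lad (hL : LadS) (a w : VV Ω) (i j : Fin 2) :
    M2 (fun p => vl a.1 i p * vl w.1 j p) ∧ nm (fun p => vl a.1 i p * vl w.1 j p) ^ 2 ≤
      16 * (‖vE a.1‖ * ‖a‖ * (‖vE w.1‖ * ‖w‖)) := by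
  have k : ∀ (v : VV Ω) j, nm (vl v.1 j) ≤ ‖vE v.1‖ := fun v j =>
    (nm_coe _).trans_le (PiLp.norm_apply_le (vE v.1) j)
  obtain ⟨h1, h2⟩ := hL _ _ _ _ (m2_vl a.1 i) (m2_gj a.1 i 0) (m2_vl w.1 j) (m2_gj w.1 j 1)
    ((H1O.zero_iff.1 ((Vs_le Ω a.2).1.1 i)).2 0).2 ((H1O.zero_iff.1 ((Vs_le Ω w.2).1.1 j)).2 1).2
  refine ⟨h1, h2.trans (mul_le_mul_of_nonneg_left (mul_le_mul
    (mul_le_mul (k a i) (nm_co_le a.1 _) (nm_nonneg _) (norm_nonneg _))
    (mul_le_mul (k w j) (nm_co_le w.1 _) (nm_nonneg _) (norm_nonneg _))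
    (mul_nonneg (nm_nonneg _) (nm_nonneg _)) (by positivity)) (by norm_num))⟩

theorem exists_pr (hL : LadS) (i j : Fin 2) : ∃ b : VV Ω →L[ℝ] VV Ω →L[ℝ] L,
    ∀ a w, b a w =ᵐ[volume] fun p => vl a.1 i p * vl w.1 j p := by
  have k := fun a w : VV Ω => (lad hL a w i j).1
  refine ⟨LinearMap.mkContinuous₂ (LinearMap.mk₂ ℝ (fun a w => MemLp.toLp _ (k a w))
    (fun a a' w => ?_) (fun c a w => ?_) (fun a w w' => ?_) fun c a w => ?_) (4 * ‖vE‖)
    fun a w => ?_, fun a w => (k a w).coeFn_toLp⟩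
  · refine ((k _ _).toLp_congr ((k a w).add (k a' w)) ?_).trans (MemLp.toLp_add (k a w) (k a' w))
    filter_upwards [co_add a.1 a'.1 (i, none)] with p h
    exact (congrArg (· * vl w.1 j p) h).trans (add_mul _ _ _)
  · refine ((k _ _).toLp_congr ((k a w).cmul c) ?_).trans (MemLp.toLp_const_smul c (k a w))
    filter_upwards [co_smul c a.1 (i, none)] with p h
    exact (congrArg (· * vl w.1 j p) h).trans (mul_assoc _ _ _)
  · refine ((k _ _).toLp_congr ((k a w).add (k a w')) ?_).trans (MemLp.toLp_add (k a w) (k a w'))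
    filter_upwards [co_add w.1 w'.1 (j, none)] with p h
    exact (congrArg (vl a.1 i p * ·) h).trans (mul_add _ _ _)
  · refine ((k _ _).toLp_congr ((k a w).cmul c) ?_).trans (MemLp.toLp_const_smul c (k a w))
    filter_upwards [co_smul c w.1 (j, none)] with p h
    exact (congrArg (vl a.1 i p * ·) h).trans (mul_left_comm _ _ _)
  · refine (nm_toLp (k a w)).trans_le (abs_le_of_sq_le_sq' ((lad hL a w i j).2.trans ?_)
      (by positivity)).2
    have := mul_le_mul (mul_le_mul_of_nonneg_right (vE.le_opNorm a.1) (norm_nonneg a))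
      (mul_le_mul_of_nonneg_right (vE.le_opNorm w.1) (norm_nonneg w)) (by positivity) (by positivity)
    rw [Submodule.coe_norm, Submodule.coe_norm] at *
    nlinarith

theorem exists_B (hL : LadS) {W : Type} [NormedAddCommGroup W] [InnerProductSpace ℝ W]
    [CompleteSpace W] (π : W →L[ℝ] E6) : ∃ B : VV Ω →L[ℝ] VV Ω →L[ℝ] W,
      ∀ a w ζ, ⟪B a w, ζ⟫_ℝ = -tj a.1 w.1 (π ζ) := by
  choose b hb using exists_pr (Ω := Ω) hL
  refine ⟨-∑ j, ∑ i, ContinuousLinearMap.compL ℝ (VV Ω) L W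
    (adj ((PiLp.proj 2 (fun _ : Ix => L) (j, some i) : E6 →L[ℝ] L) ∘L π)) ∘L b i j, fun a w ζ => ?_⟩
  simp only [neg_apply, sum_apply, inner_neg_left,
    sum_inner, ContinuousLinearMap.comp_apply, ContinuousLinearMap.compL_apply, adj_inner, inner_L]
  exact congrArg _ (Finset.sum_congr rfl fun j _ => Finset.sum_congr rfl fun i _ =>
    integral_congr_ae ((hb i j a w).mul EventuallyEq.rfl))

theorem tj_le (hL : LadS) (a w : VV Ω) (ζ : E6) :
    -tj a.1 w.1 ζ ≤ 16 * √(‖vE a.1‖ * ‖a‖ * (‖vE w.1‖ * ‖w‖)) * ‖ζ‖ := by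
  have k : ∀ j i, -(4 * √(‖vE a.1‖ * ‖a‖ * (‖vE w.1‖ * ‖w‖)) * ‖ζ‖) ≤
      ∫ x, vl a.1 i x * vl w.1 j x * gj ζ j i x := fun j i => by
    obtain ⟨h1, h2⟩ := lad hL a w i j
    refine (abs_le.1 ((abs_int_le h1 (m2_gj ζ j i)).trans (mul_le_mul (abs_le_of_sq_le_sq' ?_
      (by positivity)).2 (nm_co_le ζ _) (nm_nonneg _) (by positivity)))).1
    rwa [mul_pow, Real.sq_sqrt (by positivity), show (4 : ℝ) ^ 2 = 16 by norm_num]
  simp only [tj, Fin.sum_univ_two]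
  linarith [k 0 0, k 0 1, k 1 0, k 1 1]

theorem tj_zero {φ : Fin 2 → P → ℝ} {v : E6} (hφ : Sole Ω φ) (h : Jet φ v) : tj v v v = 0 := by
  rw [h.tj, tl_congr (fun j => (h j).1) fun j => (h j).1]
  refine Finset.sum_eq_zero fun j _ => ?_
  have t : Test Ω fun x => φ j x * φ j x := (hφ.1 j).smul (hφ.1 j).1
  have k : ∀ i, ∫ x, φ i x * φ j x * dd (fun _ => 0) i (φ j) x =
      -(1 / 2) * ∫ x, pd (ee i) (φ i) x * (φ j x * φ j x) := fun i => by
    have := WD.of_cd (contDiff_infty.1 (hφ.1 i).1 1) Ω (ee i) _ t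
    rw [neg_mul, ← mul_neg, ← this, ← integral_const_mul, dd_zero]
    refine integral_congr_ae (Eventually.of_forall fun x => ?_)
    simp only [pd_mul _ (sm_diff (hφ.1 j).1 x) (sm_diff (hφ.1 j).1 x)]
    ring
  simp only [k]
  rw [← Finset.mul_sum, ← integral_finsetSum _ fun i _ => ((hφ.1 i).pd _).m2.int_mul t.m2]
  simp only [← Finset.sum_mul, hφ.2, zero_mul, integral_zero, mul_zero]

end Model

open Model in
theorem rowModel : OfModel := by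
  intro hL hC Ω g hΩ hg
  obtain ⟨⟨c, c0, hc⟩, hK⟩ := hC Ω hΩ
  obtain ⟨B, hB⟩ := exists_B (Ω := Ω) hL (Vs Ω).subtypeL
  obtain ⟨B', hB'⟩ := exists_B (Ω := Ω) hL (Ys Ω).subtypeL
  obtain ⟨G, hG⟩ : ∃ G : X2, ∀ ζ : E6, ⟪G, vE ζ⟫_ℝ = ip g (vl ζ) :=
    ⟨WithLp.toLp 2 fun j => MemLp.toLp _ (hg j), fun ζ => (inner_X _ ζ).trans
      (ip_congr (fun j => (hg j).coeFn_toLp) fun _ => EventuallyEq.rfl)⟩
  have hA : ∀ (W : Submodule ℝ E6) [CompleteSpace W], ∃ A : VV Ω →L[ℝ] W,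
      ∀ v ζ, ⟪A v, ζ⟫_ℝ = dj v.1 ζ.1 := fun W _ =>
    ⟨(adj W.subtypeL - adj (vE ∘L W.subtypeL) ∘L vE) ∘L (Vs Ω).subtypeL, fun v ζ => by
      simp only [ContinuousLinearMap.comp_apply, sub_apply, inner_sub_left,
        adj_inner]
      exact inner_E _ _⟩
  obtain ⟨A, hA1⟩ := hA (Vs Ω)
  obtain ⟨A', hA2⟩ := hA (Ys Ω)
  refine ⟨⟨vE ∘L (Vs Ω).subtypeL, A, B, adj (vE ∘L (Vs Ω).subtypeL) G, c, 256,
    (injective_iff_map_eq_zero _).2 fun v hv => Subtype.ext (eq_zero_of_van (Vs_le Ω v.2).1 fun j => ?_),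
    c0, by norm_num, fun v => (hc v.1 (Vs_le_Ys Ω v.2)).trans_eq (hA1 v v).symm, fun u v => ?_⟩,
    ⟨adj (vE ∘L (Ys Ω).subtypeL), A', B', adj (vE ∘L (Ys Ω).subtypeL) G⟩, fun _ => rfl, hA1, hB,
    fun ζ => (adj_inner _ _ _).trans (hG ζ.1), fun x ζ => (adj_inner _ _ _).trans (inner_X x ζ.1),
    hA2, hB', fun ζ => (adj_inner _ _ _).trans (hG ζ.1), fun u => ?_, hK⟩
  · have e : v.1 (j, none) = 0 := congrArg (fun x : X2 => x j) hv
    exact (Lp.eq_zero_iff_ae_eq_zero.1 e).mono fun _ a _ => a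
  · have h := ((hB u v (B u v)).trans_le (tj_le hL u v _))
    rw [real_inner_self_eq_norm_sq] at h
    have h0 := Real.sq_sqrt (show 0 ≤ ‖vE u.1‖ * ‖u‖ * (‖vE v.1‖ * ‖v‖) by positivity)
    change _ ≤ _ * ‖B u v‖ at h
    change _ ≤ 256 * (‖vE u.1‖ * ‖u‖ * (‖vE v.1‖ * ‖v‖))
    nlinarith [sq_nonneg (‖B u v‖ - 16 * √(‖vE u.1‖ * ‖u‖ * (‖vE v.1‖ * ‖v‖)))]
  · have hd : u ∈ closure ((↑) ⁻¹' (V0 Ω : Set E6) : Set (VV Ω)) := closure_subtype.2
      (closure_mono (fun x hx => by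
        exact ⟨⟨x, (V0 Ω).le_topologicalClosure hx⟩, hx, rfl⟩) u.2)
    refine closure_minimal (t := {u : VV Ω | ⟪B u u, u⟫_ℝ = 0}) (fun v hv => ?_)
      (isClosed_eq (by fun_prop) continuous_const) hd
    obtain ⟨φ, a, b⟩ := hv
    exact (hB v v v).trans (neg_eq_zero.2 (tj_zero a b))

end Pool.Agent.MP_ed9623_an.H77
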